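import Pool.Agent.MP_39a890_nt.h6.SG
import Pool.Agent.MP_39a890_nt.All

/-!
# First returns of the orbits of `x ↦ g (x - 1) + 1` to the primes
-/

namespace Pool.Agent.MP_39a890_nt.Chain

open Finset Filter Pool.Agent.MP_39a890_nt Pool.Agent.MP_678834_nt

/-- A modulus `V` and a class `b` such that `g ^ k * (V * n + b) + 1` can be prime only for `k`
in the pattern. -/
theorem setupG {κ : Type} (w₀ g H : ℕ) (hg : 2 ≤ g) (h : κ → ℕ)
    (hinj : Function.Injective h) (hH : ∀ i, h i ≤ H) :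
    ∃ V b : ℕ, 0 < V ∧ (∀ q : ℕ, q.Prime → q ≤ w₀ → q ∣ g ^ H * V) ∧
      Forms (fun i => g ^ h i * V) (fun i => g ^ h i * b + 1) (g ^ H * V) ∧
      ∀ n, 1 ≤ n → ∀ k ≤ H, (g ^ k * (V * n + b) + 1).Prime → ∃ l, k = h l := by
  classical
  have hg0 : 0 < g := by omega
  have hpw : ∀ k ≤ H, g ^ k ≤ g ^ H := fun k hk => Nat.pow_le_pow_right hg0 hk
  set l : ℕ → ℕ := fun k => Nat.nth Nat.Prime (g ^ H + k) with hl
  have hl1 : ∀ k, (l k).Prime := fun k => Nat.prime_nth_prime _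
  have hl2 : ∀ k, g ^ H < l k := fun k => by
    have := Nat.add_two_le_nth_prime (g ^ H + k)
    simp only [hl]; omega
  have hl3 : StrictMono l := fun a b hab =>
    Nat.nth_strictMono Nat.infinite_setOfPred_prime (by omega)
  have hβ : ∀ p : ℕ, ∃ β : ℕ, p.Prime → (∀ i, ¬ p ∣ g ^ h i * β + 1) ∧
      ∀ k ≤ H, (∀ i, k ≠ h i) → p = l k → p ∣ g ^ k * β + 1 := by
    intro p
    by_cases hp : p.Prime
    swap
    · exact ⟨0, fun h => absurd h hp⟩
    by_cases h1 : ∃ k ≤ H, (∀ i, k ≠ h i) ∧ p = l k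
    · obtain ⟨k, hk, h2, hpk⟩ := h1
      have := Fact.mk hp
      have hlt : ∀ m ≤ H, g ^ m < p := fun m hm => (hpw m hm).trans_lt (hpk ▸ hl2 k)
      have hne : ((g ^ k : ℕ) : ZMod p) ≠ 0 := fun e =>
        absurd (Nat.le_of_dvd (by positivity) ((ZMod.natCast_eq_zero_iff _ _).1 e))
          (hlt k hk).not_ge
      have hk' : ((g ^ k : ℕ) : ZMod p) * (-((g ^ k : ℕ) : ZMod p)⁻¹) + 1 = 0 := by
        rw [mul_neg, mul_inv_cancel₀ hne, neg_add_cancel]
      refine ⟨(-((g ^ k : ℕ) : ZMod p)⁻¹).val, fun _ => ⟨fun i hi => h2 i ?_, fun k' _ _ e => ?_⟩⟩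
      · rw [← ZMod.natCast_eq_zero_iff, Nat.cast_add, Nat.cast_mul, ZMod.natCast_zmod_val,
          Nat.cast_one] at hi
        have e : ((g ^ k : ℕ) : ZMod p) = ((g ^ h i : ℕ) : ZMod p) :=
          mul_right_cancel₀ (neg_ne_zero.2 (inv_ne_zero hne))
            (add_right_cancel (hk'.trans hi.symm))
        rw [ZMod.natCast_eq_natCast_iff', Nat.mod_eq_of_lt (hlt k hk),
          Nat.mod_eq_of_lt (hlt _ (hH i))] at e
        exact Nat.pow_right_injective hg e
      · rw [← hl3.injective (hpk.symm.trans e), ← ZMod.natCast_eq_zero_iff, Nat.cast_add,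
          Nat.cast_mul, ZMod.natCast_zmod_val, Nat.cast_one]
        exact hk'
    · refine ⟨0, fun _ => ⟨fun i hi => ?_, fun k hk h2 e => absurd ⟨k, hk, h2, e⟩ h1⟩⟩
      rw [mul_zero, zero_add, Nat.dvd_one] at hi
      exact hp.one_lt.ne' hi
  choose β hβ using hβ
  set w := max w₀ (l H) with hw
  obtain ⟨b, hb⟩ := Nat.chineseRemainderOfFinset β id ((range (w + 1)).filter Nat.Prime)
    (fun p hp => (mem_filter.1 hp).2.ne_zero) (fun p hp q hq hne =>
      (Nat.coprime_primes (mem_filter.1 hp).2 (mem_filter.1 hq).2).2 hne)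
  have hb' : ∀ p : ℕ, p.Prime → p ≤ w → ∀ k, p ∣ g ^ k * b + 1 ↔ p ∣ g ^ k * β p + 1 :=
    fun p hp hw k => (((hb p (mem_filter.2 ⟨mem_range.2 (by omega), hp⟩)).mul_left
      (g ^ k)).add_right 1).dvd_iff dvd_rfl
  have hW : ∀ q : ℕ, q.Prime → (q ∣ primorial w ↔ q ≤ w) := fun q hq => hq.dvd_primorial_iff
  have hgw : g ^ H ≤ w := (hl2 H).le.trans (le_max_right _ _)
  have hW' : ∀ q : ℕ, q.Prime → q ∣ g ^ H * primorial w → q ≤ w := fun q hq h1 => by
    rcases hq.dvd_mul.1 h1 with h2 | h2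
    · exact (Nat.le_of_dvd (by positivity) h2).trans hgw
    · exact (hW q hq).1 h2
  refine ⟨primorial w, b, primorial_pos w,
    fun q hq h1 => ((hW q hq).2 (h1.trans (le_max_left _ _))).mul_left _,
    ⟨fun i => mul_dvd_mul_right (pow_dvd_pow g (hH i)) _,
      fun _ q hq h1 => ((hW q hq).2 (hW' q hq h1)).mul_left _, fun i => ?_,
      fun i j hij q hq h1 => ?_⟩, fun n hn k hk h3 => ?_⟩
  · refine Nat.coprime_of_dvd fun p hp h1 h2 => ?_
    exact (hβ p hp).1 i ((hb' p hp (hW' p hp h2) _).1 h1)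
  · have e : ((g ^ h i * primorial w : ℕ) : ℤ) * ((g ^ h j * b + 1 : ℕ) : ℤ) -
        ((g ^ h j * primorial w : ℕ) : ℤ) * ((g ^ h i * b + 1 : ℕ) : ℤ) =
        (primorial w : ℤ) * (((g ^ h i : ℕ) : ℤ) - (g ^ h j : ℕ)) := by push_cast; ring
    rw [e] at h1
    refine Dvd.dvd.mul_left ?_ _
    rcases (Nat.prime_iff_prime_int.1 hq).dvd_or_dvd h1 with h2 | h2
    · exact_mod_cast h2
    · have h3 : ((g ^ h i : ℕ) : ℤ) - (g ^ h j : ℕ) ≠ 0 := fun e =>
        hij (hinj (Nat.pow_right_injective hg (by exact_mod_cast sub_eq_zero.1 e)))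
      have h4 := Int.natAbs_le_of_dvd_ne_zero h2 h3
      have := hpw _ (hH i)
      have := hpw _ (hH j)
      refine (hW q hq).2 (le_trans ?_ hgw)
      omega
  · by_contra hc
    push Not at hc
    have h4 : l k ≤ w := (hl3.monotone hk).trans (le_max_right _ _)
    have h5 : l k ∣ g ^ k * b + 1 := (hb' _ (hl1 k) h4 k).2 ((hβ _ (hl1 k)).2 k hk hc rfl)
    have h6 := (hW _ (hl1 k)).2 h4
    have h7 := (Nat.prime_dvd_prime_iff_eq (hl1 k) h3).1 (by
      rw [mul_add, add_assoc]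
      exact dvd_add ((h6.mul_right n).mul_left _) h5)
    have h8 := Nat.le_of_dvd (primorial_pos w) h6
    have h9 : primorial w ≤ primorial w * n := Nat.le_mul_of_pos_right _ hn
    have h10 : primorial w * n + b ≤ g ^ k * (primorial w * n + b) :=
      Nat.le_mul_of_pos_left _ (by positivity)
    omega

/-- `p` is prime, it is the `j`-th iterate of a prime under `x ↦ g (x - 1) + 1`, and the
iterates in between are not prime. -/
def Ret (g j p : ℕ) : Prop :=
  p.Prime ∧ g ^ j ∣ p - 1 ∧ ((p - 1) / g ^ j + 1).Prime ∧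
    ∀ i, 0 < i → i < j → ¬ ((p - 1) / g ^ i + 1).Prime

theorem consecG {t g H : ℕ} (hg : 2 ≤ g) {h : Fin 4 × Fin t → ℕ} (hH : ∀ i, h i ≤ H)
    (hord : ∀ i j, i.1 < j.1 → h i < h j) {y : ℕ}
    (hy : ∀ k ≤ H, (g ^ k * y + 1).Prime → ∃ l, k = h l) {i j : Fin 4 × Fin t}
    (hij : i.1 < j.1) (hi : (g ^ h i * y + 1).Prime) (hj : (g ^ h j * y + 1).Prime) :
    ∃ i j : Fin 4 × Fin t, i.1 < j.1 ∧ Ret g (h j - h i) (g ^ h j * y + 1) := by
  classical
  obtain ⟨u, hu, hu'⟩ := exists_max_image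
    (univ.filter fun u => u.1 ≤ i.1 ∧ (g ^ h u * y + 1).Prime) h ⟨i, by simp [hi]⟩
  obtain ⟨v, hv, hv'⟩ := exists_min_image
    (univ.filter fun v => i.1 < v.1 ∧ (g ^ h v * y + 1).Prime) h ⟨j, by simp [hij, hj]⟩
  simp only [mem_filter, mem_univ, true_and, and_imp] at hu hv hu' hv'
  have huv := hu.1.trans_lt hv.1
  have h1 := hord u v huv
  have e : ∀ d ≤ h v, g ^ h v * y = g ^ d * (g ^ (h v - d) * y) := fun d hd => by
    rw [← mul_assoc, ← pow_add, Nat.add_sub_cancel' hd]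
  have e' : ∀ d ≤ h v, (g ^ h v * y + 1 - 1) / g ^ d = g ^ (h v - d) * y := fun d hd => by
    rw [Nat.add_sub_cancel, e d hd, Nat.mul_div_cancel_left _ (by positivity)]
  refine ⟨u, v, huv, hv.2, ?_, ?_, fun d h3 h4 hn => ?_⟩
  · rw [Nat.add_sub_cancel, e _ (Nat.sub_le _ _)]
    exact dvd_mul_right _ _
  · rw [e' _ (Nat.sub_le _ _), Nat.sub_sub_self h1.le]
    exact hu.2
  · rw [e' d (by omega)] at hn
    obtain ⟨l, hl⟩ := hy _ ((Nat.sub_le _ _).trans (hH v)) hn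
    rw [hl] at hn
    rcases le_or_gt l.1 i.1 with h5 | h5
    · have := hu' l h5 hn
      omega
    · have := hv' l h5 hn
      omega

open Classical in
theorem pairsG {f : ℝ → ℝ} (hf : SG f) : ∃ t : ℕ, ∀ g T H : ℕ, 2 ≤ g →
    ∀ h : Fin 4 × Fin t → ℕ, (∀ i, h i ≤ H) → Function.Injective h →
    (∀ i j, i.1 < j.1 → h i < h j ∧ h j - h i ≤ T) →
    ∃ A : ℕ, 0 < A ∧ ∀ᶠ N : ℕ in atTop, f (N / A) ≤
      ∑ z ∈ univ.filter fun z : (Fin 4 × Fin t) × (Fin 4 × Fin t) => z.1.1 < z.2.1,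
        (((Icc N (g ^ T * N)).filter (Ret g (h z.2 - h z.1))).card : ℝ) := by
  obtain ⟨t, w₀, hf⟩ := hf
  refine ⟨t, fun g T H hg h hH hinj hord => ?_⟩
  obtain ⟨V, b, hV, h1, h2, h4⟩ := setupG w₀ g H hg h hinj hH
  have hg0 : 0 < g := by omega
  set lo := sInf (Set.range h) with hlo
  have hlo1 : ∀ u v : Fin 4 × Fin t, u.1 < v.1 → lo + 1 ≤ h v ∧ h v ≤ lo + T := fun u v huv => by
    have a1 : lo ≤ h u := Nat.sInf_le ⟨u, rfl⟩
    obtain ⟨i, hi⟩ : lo ∈ Set.range h := Nat.sInf_mem ⟨_, u, rfl⟩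
    have a2 := hord u v huv
    rcases lt_or_ge i.1 v.1 with a3 | a3
    · have := hord i v a3
      omega
    · have := hord u i (huv.trans_le a3)
      omega
  refine ⟨g ^ (lo + 1) * V, by positivity, ?_⟩
  set A : ℕ := g ^ (lo + 1) * V with hA
  have hA' : (0 : ℝ) < A := by positivity
  have ht : Tendsto (fun N : ℕ => (N : ℝ) / A) atTop atTop :=
    tendsto_natCast_atTop_atTop.atTop_div_const hA'
  filter_upwards [ht.eventually (hf _ (by positivity) h1 _ _ h2), ht.eventually_ge_atTop 1,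
    eventually_ge_atTop (4 * (g ^ lo * b + 1))] with N a1 a2 a3
  refine a1.trans ?_
  rw [← Nat.cast_sum, Nat.cast_le]
  have e : ∀ k n, g ^ k * V * n + (g ^ k * b + 1) = g ^ k * (V * n + b) + 1 := fun k n => by ring
  refine (card_le_card (t := (univ.filter fun z : (Fin 4 × Fin t) × (Fin 4 × Fin t) =>
    z.1.1 < z.2.1).biUnion fun z => (range ⌈3 * ((N : ℝ) / A)⌉₊).filter fun n : ℕ =>
      (N : ℝ) / A ≤ n ∧ (n : ℝ) ≤ 3 / 2 * (N / A) ∧
        Ret g (h z.2 - h z.1) (g ^ h z.2 * (V * n + b) + 1))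
    fun n hn => ?_).trans (card_biUnion_le.trans (sum_le_sum fun z hz => ?_))
  · obtain ⟨b1, b2, b3, i, j, hij, hi, hj⟩ := mem_filter.1 hn
    have b4 : 1 ≤ n := by exact_mod_cast a2.trans b2
    rw [e] at hi hj
    obtain ⟨u, v, huv, b5⟩ := consecG hg hH (fun i j hij => (hord i j hij).1) (h4 n b4) hij hi hj
    exact mem_biUnion.2 ⟨(u, v), by simpa using huv, mem_filter.2 ⟨b1, b2, b3, b5⟩⟩
  · refine card_le_card_of_injOn (fun n => g ^ h z.2 * (V * n + b) + 1) (fun n hn => ?_)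
      fun n _ n' _ e => ?_
    · obtain ⟨-, b2, b3, b5⟩ := mem_filter.1 (mem_coe.1 hn)
      obtain ⟨c1, c2⟩ := hlo1 z.1 z.2 (mem_filter.1 hz).2
      rw [div_le_iff₀ hA'] at b2
      rw [← mul_div_assoc, le_div_iff₀ hA'] at b3
      have b6 : N ≤ n * A := by exact_mod_cast b2
      have b7 : 2 * (n * A) ≤ 3 * N := by
        have : (2 : ℝ) * (n * A) ≤ 3 * N := by linarith
        exact_mod_cast this
      refine mem_coe.2 (mem_filter.2 ⟨mem_Icc.2 ⟨?_, ?_⟩, b5⟩)
      · have d1 : g ^ (lo + 1) ≤ g ^ h z.2 := Nat.pow_le_pow_right hg0 c1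
        have d2 : n * A ≤ g ^ h z.2 * (V * n + b) := by
          rw [hA, show n * (g ^ (lo + 1) * V) = g ^ (lo + 1) * (V * n) by ring]
          exact Nat.mul_le_mul d1 (Nat.le_add_right _ _)
        beta_reduce
        omega
      · have d1 : g ^ h z.2 ≤ g ^ T * g ^ lo := by
          rw [← pow_add, add_comm]
          exact Nat.pow_le_pow_right hg0 c2
        have d2 : 2 * (g ^ lo * (V * n)) ≤ n * A := by
          rw [hA, show n * (g ^ (lo + 1) * V) = g * (g ^ lo * (V * n)) by ring]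
          exact Nat.mul_le_mul_right _ hg
        have d3 : g ^ lo * (V * n + b) + 1 ≤ N := by
          rw [mul_add]
          omega
        have d4 : 1 ≤ g ^ T := Nat.one_le_pow _ _ hg0
        calc g ^ h z.2 * (V * n + b) + 1 ≤ g ^ T * g ^ lo * (V * n + b) + g ^ T :=
              Nat.add_le_add (Nat.mul_le_mul_right _ d1) d4
          _ = g ^ T * (g ^ lo * (V * n + b) + 1) := by ring
          _ ≤ g ^ T * N := Nat.mul_le_mul_left _ d3
    · exact Nat.eq_of_mul_eq_mul_left hV (Nat.add_right_cancel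
        (Nat.eq_of_mul_eq_mul_left (by positivity) (Nat.add_right_cancel e)))

open Classical in
theorem third {K : ℕ} (hS : SG fun X => X / Real.log X ^ K) (ε : ℝ) (hε : 0 < ε) :
    ∀ᶠ T : ℕ in atTop, ∀ g : ℕ, 2 ≤ g → ∀ᶠ N : ℕ in atTop,
      (1 / 3 - ε) * T ≤ (((Icc 1 T).filter fun j => (N : ℝ) / Real.log N ^ (K + 1) ≤
        (((Icc N (g ^ T * N)).filter (Ret g j)).card : ℝ)).card : ℝ) := by
  obtain ⟨t, hS⟩ := pairsG hS
  filter_upwards [UDens.udens t ε hε] with T hT g hg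
  set F := (Fintype.piFinset fun _ : Fin 4 × Fin t => range (2 * T + 1)).filter fun h =>
    Function.Injective h ∧ ∀ i j, i.1 < j.1 → h i < h j ∧ h j - h i ≤ T with hF
  have key : ∀ h ∈ F, ∀ᶠ N : ℕ in atTop, ∃ i j : Fin 4 × Fin t, i.1 < j.1 ∧
      (N : ℝ) / Real.log N ^ (K + 1) ≤
        (((Icc N (g ^ T * N)).filter (Ret g (h j - h i))).card : ℝ) := by
    intro h hh
    obtain ⟨b1, b2, b3⟩ := mem_filter.1 hh
    obtain ⟨A, hA, h1⟩ := hS g T (2 * T) hg h
      (fun i => Nat.lt_succ_iff.1 (mem_range.1 (Fintype.mem_piFinset.1 b1 i))) b2 b3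
    have hA1 : (1 : ℝ) ≤ A := by exact_mod_cast hA
    have ht : Tendsto (fun N : ℕ => (N : ℝ) / A) atTop atTop :=
      tendsto_natCast_atTop_atTop.atTop_div_const (by positivity)
    set Z := univ.filter fun z : (Fin 4 × Fin t) × (Fin 4 × Fin t) => z.1.1 < z.2.1 with hZ
    filter_upwards [h1, ht.eventually_gt_atTop 1, (Real.tendsto_log_atTop.comp
      tendsto_natCast_atTop_atTop).eventually_gt_atTop (A * Z.card)] with N a1 a3 a4
    by_contra hc
    push Not at hc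
    set x : ℝ := (N : ℝ) with hx
    have a4' : (A : ℝ) * Z.card < Real.log x := a4
    have a5 : 0 < Real.log (x / A) := Real.log_pos a3
    have a6 : x / A ≤ x := div_le_self (Nat.cast_nonneg _) hA1
    have a7 : Real.log (x / A) ≤ Real.log x := Real.log_le_log (by linarith) a6
    have a8 : 0 < Real.log x := a5.trans_le a7
    have hx0 : 0 < x := by linarith
    have c1 : x / A / Real.log (x / A) ^ K ≤ Z.card * (x / Real.log x ^ (K + 1)) := by
      refine a1.trans ?_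
      rw [← nsmul_eq_mul]
      exact sum_le_card_nsmul _ _ _ fun z hz => (hc _ _ (mem_filter.1 hz).2).le
    have c2 : x / A / Real.log x ^ K ≤ x / A / Real.log (x / A) ^ K := by gcongr
    have c3 : Z.card * (x / Real.log x ^ (K + 1)) < x / A / Real.log x ^ K := by
      rw [div_div, ← mul_div_assoc, div_lt_div_iff₀ (by positivity) (by positivity), pow_succ]
      have := mul_lt_mul_of_pos_left a4' (show 0 < x * Real.log x ^ K by positivity)
      linarith
    linarith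
  filter_upwards [(eventually_all_finset F).2 key] with N hN
  refine le_of_not_gt fun hlt => ?_
  obtain ⟨h, h1, h2, h3, -⟩ := hT _ hlt.le
  obtain ⟨i, j, hij, h5⟩ := hN h (mem_filter.2 ⟨Fintype.mem_piFinset.2 fun i =>
    mem_range.2 (Nat.lt_succ_iff.2 (h1 i)), h2, fun i j hij => ⟨(h3 i j hij).1, (h3 i j hij).2.1⟩⟩)
  obtain ⟨a1, a2, a3⟩ := h3 i j hij
  exact a3 (mem_filter.2 ⟨mem_Icc.2 ⟨by omega, a2⟩, h5⟩)

theorem sg_all : ∃ K : ℕ, SG fun X => X / Real.log X ^ K :=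
  sieveG (klc (weil hyp)) (bvc ls sw page pnt) count one small

end Pool.Agent.MP_39a890_nt.Chain
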