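import Pool.Agent.MP_678834_nt.Quant

/-!
# The sieve with four parts, counting form, arbitrary leading coefficients

The proof is the one of `Pool.Agent.MP_678834_nt.sieveQ`, with forms `a k * n + c k` and a
weight supported in `[1, 3/2]`.
-/

namespace Pool.Agent.MP_39a890_nt.Chain

open Finset Filter Pool.Agent.MP_39a890_nt Pool.Agent.MP_39a890_nt.Sums
  Pool.Agent.MP_39a890_nt.Core Pool.Agent.MP_678834_nt

open Classical in
/-- The sieve with four parts, with a lower bound `f X` for the number of good `n`. -/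
def SG (f : ℝ → ℝ) : Prop :=
  ∃ t w₀ : ℕ, ∀ W : ℕ, 0 < W → (∀ q : ℕ, q.Prime → q ≤ w₀ → q ∣ W) →
    ∀ a c : Fin 4 × Fin t → ℕ, Forms a c W → ∀ᶠ X : ℝ in atTop,
      f X ≤ (((range ⌈3 * X⌉₊).filter fun n : ℕ => X ≤ n ∧ (n : ℝ) ≤ 3 / 2 * X ∧
        ∃ i j, i.1 < j.1 ∧ (a i * n + c i).Prime ∧ (a j * n + c j).Prime).card : ℝ)

theorem exists_wt' : ∃ φ : ℝ → ℝ, Wt φ ∧ (0 < ∫ u, φ u) ∧ ∀ x, φ x ≠ 0 → x ≤ 3 / 2 := by
  let b : ContDiffBump (5 / 4 : ℝ) := ⟨1 / 8, 1 / 4, by norm_num, by norm_num⟩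
  have hs : ∀ x, b x ≠ 0 → 1 ≤ x ∧ x ≤ 3 / 2 := fun x hx => by
    have : x ∈ Function.support b := hx
    rw [b.support_eq, Real.ball_eq_Ioo] at this
    constructor <;> linarith [this.1, this.2, show b.rOut = 1 / 4 from rfl]
  exact ⟨b, ⟨b.contDiff, fun x hx => ⟨(hs x hx).1, (hs x hx).2.trans (by norm_num)⟩,
    fun _ => b.nonneg, fun _ => b.le_one⟩, b.integral_pos, fun x hx => (hs x hx).2⟩

theorem sieveG (hK : KLfor fun _ => True) (hB : BVfor fun _ => True) (hC : CountStmt)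
    (hO : OneStmt) (hS : SmallStmt) : ∃ K : ℕ, SG fun X => X / Real.log X ^ K := by
  classical
  obtain ⟨ε, hε0, hε⟩ : ∃ ε : ℝ, 0 < ε ∧ ε ≤ 1 / 10 ^ 11 := ⟨_, by positivity, le_rfl⟩
  obtain ⟨N₀, hN⟩ := exists_nat_ge (2 / ε)
  rw [div_le_iff₀' hε0] at hN
  obtain ⟨J, hJ⟩ := exists_nat_ge (2 * 9 ^ N₀ * (2048 * 4) / (100 * ε ^ 3) : ℝ)
  obtain ⟨t, ht⟩ : ∃ t : ℕ, t = 2 ^ J := ⟨_, rfl⟩
  have ht0 : 0 < t := ht ▸ by positivity
  set K := Fintype.card (Fin 4 × Fin t) with hKd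
  have hKe : (K : ℝ) = 4 * t := by simp [hKd]
  have ht1 : (0 : ℝ) < t := by exact_mod_cast ht0
  have hK0 : (0 : ℝ) < K := by rw [hKe]; positivity
  obtain ⟨lam, hlam⟩ : ∃ lam : ℝ, lam = ε * ε / (32 * K * (J + 1)) := ⟨_, rfl⟩
  have hl0 : 0 < lam := hlam ▸ by positivity
  have hl1 : 32 * K * (J + 1) * lam = ε * ε := by rw [hlam]; field_simp
  have hl2 : 2 ^ J * lam ≤ ε / 2 := by
    have h1 : (2 : ℝ) ^ J = t := by rw [ht]; push_cast; rfl
    have h2 : (t : ℝ) * 1 ≤ K * (J + 1) := mul_le_mul (by rw [hKe]; nlinarith)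
      (by linarith [(Nat.cast_nonneg J : (0 : ℝ) ≤ J)]) zero_le_one hK0.le
    rw [h1]
    nlinarith
  obtain ⟨w₁, hw₁⟩ := hO (cK (Fin 4 × Fin t)) cK_nonneg
  obtain ⟨w₂, hw₂⟩ := hS (cK (Fin 4 × Fin t)) ε K cK_nonneg hε0
  refine ⟨4 * K + 81 ^ K + 1, t, max w₁ w₂, fun W hW hw a b hFo => ?_⟩
  obtain ⟨φ, hφ, hI, hφs⟩ := exists_wt'
  have hapos : ∀ k, 0 < a k := fun k => Nat.pos_of_dvd_of_pos (hFo.dvd k) hW
  have : Nonempty (Fin 4 × Fin t) := ⟨0, 0, ht0⟩
  obtain ⟨C, hCC⟩ := hC φ hφ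
  have hC0 : 0 ≤ C := (abs_nonneg _).trans (hCC 1 le_rfl 1 0 one_pos)
  set ρ : ℝ := (W.totient : ℝ) / W with hρ
  have hW' : (0 : ℝ) < W := by exact_mod_cast hW
  have hρ0 : 0 < ρ := div_pos (by exact_mod_cast Nat.totient_pos.2 hW) hW'
  have hρ1 : ρ ≤ 1 := (div_le_one hW').2 (by exact_mod_cast Nat.totient_le W)
  set τ : ℝ := min 1 ((J + 1) ^ 2 * lam / 64) with hτ
  have hτ0 : 0 < τ := lt_min one_pos (by positivity)
  set I := ∫ u, φ u with hId
  have v1 := hw₁ W hW (fun q h1 h2 => hw q h1 (h2.trans (le_max_left _ _))) ε lam J hε0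
    (by linarith) hl0 (by linarith)
  have v2 := Real.tendsto_exp_atTop.eventually
    (hB φ hφ W hW (∑ k, b k) (16 ^ K) (2 * K + 2) ε hε0)
  have v3 : ∀ᶠ X in atTop, KLin φ W b X := by
    have k : ∀ θ σm σp : ℝ, 0 ≤ θ → θ ≤ 3 / 5 → 0 ≤ σp → 7 * θ + σp ≤ 4 - 40 * (1 / 20000) →
        2 * θ - 1 + 40 * (1 / 20000) ≤ σm →
        ∀ᶠ X in atTop, ∀ i j, KLat θ σm σp (1 / 20000) φ W (b i) (b j) X :=
      fun θ σm σp h1 h2 h3 h4 h5 => eventually_all.2 fun i => eventually_all.2 fun j =>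
        hK θ σm σp _ (by norm_num) h1 h2 h3 h4 h5 φ hφ W _ _ hW trivial trivial (hFo.cop i)
          (hFo.cop j)
    exact ((k _ _ _ (by norm_num) (by norm_num) (by norm_num) (by norm_num) (by norm_num)).and
      (k _ _ _ (by norm_num) (by norm_num) (by norm_num) (by norm_num) (by norm_num))).mono
      fun X h => ⟨h.1, h.2⟩
  have v4 := (isLittleO_pow_exp_pos_mul_atTop 4 (by norm_num : (0 : ℝ) < 1 / 40000)).bound
    (by positivity : 0 < ε * τ ^ 2 * I / ((5 * C + 3) * 4 ^ K))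
  have v5 := (Real.tendsto_exp_atTop.comp (tendsto_id.const_mul_atTop hε0)).eventually_ge_atTop
    (2 * W + (∑ k, b k : ℕ) : ℝ)
  set c : ℝ := 2 * W + (∑ k, b k : ℕ) with hc
  have hc0 : 0 < c := by positivity
  have key : ∀ᶠ L : ℝ in atTop, Real.exp L / L ^ (4 * K + 81 ^ K + 1) ≤
      (((range ⌈3 * Real.exp L⌉₊).filter fun n : ℕ => Real.exp L ≤ n ∧
        (n : ℝ) ≤ 3 / 2 * Real.exp L ∧
        ∃ i j, i.1 < j.1 ∧ (a i * n + b i).Prime ∧ (a j * n + b j).Prime).card : ℝ) := by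
    filter_upwards [v1, v2, Real.tendsto_exp_atTop.eventually v3, v4, v5, eventually_ge_atTop 1,
      eventually_ge_atTop (8 / (ρ * lam)), eventually_ge_atTop (1 / (ε * τ ^ 2 * I)),
      eventually_ge_atTop (1600 * K * c * 3 ^ 81 ^ K / I ^ 2)]
      with L u1 ⟨p₀, hp₀, hp₁, u2⟩ u3 u4 u5 u6 u7 u8 u9
    obtain ⟨S, hPS⟩ := exists_PS W (Real.exp_pos (272 / 1000 * L)).le
    set pr : S → ℕ := fun p => (p : ℕ) with hpr
    obtain ⟨s1, s2, s3, -, s4⟩ := hw₂ W (fun q h1 h2 => hw q h1 (h2.trans (le_max_right _ _)))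
      S pr _ hPS
    have hL : 0 < L := by linarith
    have hX := Real.exp_pos L
    have hX1 := Real.one_le_exp hL.le
    have h : Big pr a b W φ L ε lam ε C ρ τ p₀ J :=
      { ps := hPS, fo := hFo, wt := hφ, L0 := hL, δ0 := hε0, lam0 := hl0.le, hJ := hl2
        ε0 := hε0.le, C0 := hC0, cnt := hCC _ hX1, s1 := s1, s2 := s2, s3 := s4
        one := u1 S pr hPS p₀ hp₀ hp₁, ρ0 := hρ0, ρ1 := hρ1, ε1 := hε, δε := le_rfl
        lam1 := hl1.le, L1 := u6
        γ1 := by rw [div_le_iff₀ (by positivity)] at u7; linarith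
        τ0 := hτ0, τ1 := min_le_left _ _, τ2 := min_le_right _ _
        err := by
          rw [Real.norm_of_nonneg (by positivity), Real.norm_of_nonneg (Real.exp_pos _).le,
            div_mul_eq_mul_div, le_div_iff₀' (by positivity)] at u4
          refine (mul_le_mul_of_nonneg_right ((le_of_eq (by rw [mul_assoc])).trans u4)
            (Real.exp_pos _).le).trans (le_of_eq ?_)
          rw [mul_assoc, ← Real.exp_add, mass, show 1 / 40000 * L + (1 - 1 / 40000) * L = L by ring]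
          ring
        err' := by
          rw [div_le_iff₀ (by positivity)] at u8
          rw [div_le_iff₀ hL, mass]
          nlinarith }
    have hsz : ∀ i, ∀ n ∈ NN (Real.exp L), φ (n / Real.exp L) ≠ 0 →
        Real.exp (272 / 1000 * L) < (a i * n + b i : ℕ) ∧
          Real.log ((a i * n + b i : ℕ) : ℝ) ≤ (1 + ε) * L := by
      intro i n _ h0
      obtain ⟨c1, c2⟩ := hφ.supp _ h0
      rw [le_div_iff₀ hX] at c1
      rw [div_le_iff₀ hX] at c2
      have a1 : (1 : ℝ) ≤ a i := by exact_mod_cast Nat.pos_of_dvd_of_pos (hFo.dvd i) hW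
      have a2 : (a i : ℝ) ≤ W := by exact_mod_cast Nat.le_of_dvd hW (hFo.dvd i)
      have a3 : (b i : ℝ) ≤ (∑ k, b k : ℕ) := by
        exact_mod_cast single_le_sum (fun _ _ => Nat.zero_le _) (mem_univ i)
      have a4 : (0 : ℝ) ≤ b i := Nat.cast_nonneg _
      have a5 : Real.exp (272 / 1000 * L) < (a i * n + b i : ℕ) := by
        have := Real.exp_lt_exp.2 (by linarith : 272 / 1000 * L < L)
        push_cast
        nlinarith
      refine ⟨a5, (Real.log_le_iff_le_exp ((Real.exp_pos _).trans a5)).2 ?_⟩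
      have a6 : 2 * (W : ℝ) + (∑ k, b k : ℕ) ≤ Real.exp (ε * L) := u5
      rw [add_mul, one_mul, Real.exp_add, Nat.cast_add, Nat.cast_mul]
      have a7 := mul_le_mul a2 c2 (Nat.cast_nonneg _) hW'.le
      nlinarith
    have hcz := h.cz_ge
    have hcz0 : 0 < cz pr L lam p₀ J := lt_of_lt_of_le (by positivity) hcz
    have hXi : 0 < Xi (Fin 4 × Fin t) pr φ L lam p₀ J :=
      lt_of_lt_of_le (mul_pos hX hI) h.mass_le
    have hν : ∀ n, 0 ≤ μU φ (Real.exp L) n * V (tt pr) (yw pr L ε lam p₀ J) (om pr a b n) ^ 2 :=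
      fun n => mul_nonneg (hφ.nonneg _) (sq_nonneg _)
    have hm := mom4 h hapos hc0 (le_trans u5 (Real.exp_le_exp.2
      (show ε * L ≤ L by nlinarith)))
      fun k n h0 => by
        obtain ⟨c1, c2⟩ := hφ.supp _ h0
        rw [le_div_iff₀ hX] at c1
        rw [div_le_iff₀ hX] at c2
        have a3 : (b k : ℝ) ≤ (∑ k, b k : ℕ) := by
          exact_mod_cast single_le_sum (fun _ _ => Nat.zero_le _) (mem_univ k)
        have a4 : (0 : ℝ) ≤ b k := Nat.cast_nonneg _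
        have a5 : 0 < n := Nat.cast_pos.1 (show (0 : ℝ) < n by linarith)
        refine ⟨Nat.add_pos_left (Nat.mul_pos (hapos k) a5) _, ?_⟩
        have a2 : (a k : ℝ) ≤ W := by exact_mod_cast Nat.le_of_dvd hW (hFo.dvd k)
        have a7 := mul_le_mul a2 c2 (Nat.cast_nonneg _) hW'.le
        simp only [hc, Nat.cast_add, Nat.cast_mul]
        nlinarith
    refine le_of_mul_le_mul_right (le_trans ?_ (((pow_le_pow_left₀
      (div_nonneg h.mass_nonneg (by norm_num)) (div_le_div_of_nonneg_right h.mass_le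
        (by norm_num : (0 : ℝ) ≤ 40)) 2).trans (finQ (NN (Real.exp L))
      (fun n => μU φ (Real.exp L) n * V (tt pr) (yw pr L ε lam p₀ J) (om pr a b n) ^ 2)
      (fun i n => Yr pr L ε i (om pr a b n)) (fun i n => (a i * n + b i).Prime)
      (B := 2 * 9 ^ N₀) (e := 100 * ε) ht0 hXi hcz0
      (by positivity) (by linarith) ?_ hν (fun _ _ => Yr_nonneg _ _)
      (fun i n hn h0 hp => (Yr_prime hPS hL.le
        (om_prime hPS hFo hp (hsz i n hn (left_ne_zero_of_mul h0)).1)).ge)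
      (h.T0.trans (by nlinarith)) (fun i => ?_) (fun i => ?_) (fun i j hij => ?_) (fun i => ?_) _
      fun n e1 e2 i j e3 e4 e5 => ?_)).trans (mul_le_mul_of_nonneg_left hm (Nat.cast_nonneg _))))
      (by positivity)
    · rw [div_le_iff₀ (by positivity)] at u9
      rw [← hKd, mass, ← hId, div_mul_eq_mul_div, div_le_iff₀ (by positivity), pow_succ, pow_add,
        mul_pow 3]
      have d2 := mul_le_mul_of_nonneg_left u9
        (by positivity : 0 ≤ Real.exp L ^ 2 * L ^ (4 * K) * L ^ 81 ^ K / 1600)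
      refine le_trans (le_of_eq ?_) (d2.trans (le_of_eq ?_)) <;> ring
    · rw [div_le_iff₀ (by positivity)] at hJ
      refine le_trans ?_ (mul_le_mul_of_nonneg_left hcz (by positivity))
      refine le_of_mul_le_mul_right (hJ.trans ?_) (by positivity)
      rw [hKe] at hl1
      have : 100 * ε * t * ((J + 1) ^ 2 * lam / 64) * (2048 * 4) = (J + 1) * (100 * ε ^ 3) := by
        linear_combination 100 * ε * (J + 1) * hl1
      rw [this]
      exact mul_le_mul_of_nonneg_right (by linarith) (by positivity)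
    · simp only [mul_assoc]
      exact h.T1 i
    · have h3 := mul_le_mul_of_nonneg_left (h.T1u i) (by positivity : (0 : ℝ) ≤ 9 ^ N₀)
      refine le_trans ?_ (h3.trans (le_of_eq (by ring)))
      rw [SU, Sm, mul_sum]
      refine sum_le_sum fun n hn => ?_
      by_cases h0 : φ (n / Real.exp L) = 0
      · simp [μU, h0]
      obtain ⟨c1, c2⟩ := hsz i n hn h0
      have := mul_le_mul_of_nonneg_left (Yr_bound hPS hFo hL hN hε0 i
        (Nat.cast_pos.1 ((Real.exp_pos _).trans c1)) (c2.trans (by nlinarith)))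
        (mul_nonneg (hν n) (Yr_nonneg (pr := pr) (L := L) (δ := ε) i (om pr a b n)))
      linarith
    · have h3 := h.T3 hij hε0.le (by linarith) s3 u3
      simp only [mul_assoc]
      exact h3.trans (mul_le_mul_of_nonneg_right (by linarith) (by positivity))
    · obtain ⟨Mi, c1, c2⟩ := u2 (a i) (b i) (hFo.dvd i)
        (single_le_sum (fun _ _ => Nat.zero_le _) (mem_univ i)) trivial (hFo.cop i)
      rw [Real.log_exp] at c2
      rw [div_totient hW (hFo.dvd i) (hFo.full i)] at c1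
      exact (h.T4 i hp₀ c1 c2 (hsz i)).trans_eq (sum_congr rfl fun n _ => by
        split_ifs <;> rfl)
    · obtain ⟨c1, -⟩ := hφ.supp _ (left_ne_zero_of_mul e2)
      have c2 := hφs _ (left_ne_zero_of_mul e2)
      rw [le_div_iff₀ hX, one_mul] at c1
      rw [div_le_iff₀ hX] at c2
      exact mem_filter.2 ⟨e1, c1, c2, i, j, e3, e4, e5⟩
  filter_upwards [Real.tendsto_log_atTop.eventually key, eventually_gt_atTop 0] with X h h0
  rwa [Real.exp_log h0] at h

end Pool.Agent.MP_39a890_nt.Chain
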